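import Pool.Agent.helper81.WS.Spec

set_option autoImplicit false

open Finset

namespace Pool.Agent.WS

open Module Pointwise

open Pool.Agent.helper85.PG (IsSys rr)

theorem NUW (h1 : SHW_stmt) : NUW_stmt := by
  intro p _ χ w V B f e hw he H
  have hV : (0 : ℝ) ≤ V := Nat.cast_nonneg V
  have hcard : ∀ b : ZMod p, (∑ _b' ∈ (cf B f b).erase b, ((cf B f b).card : ℝ)⁻¹) ≤ 1 := by
    intro b
    rw [Finset.sum_const, nsmul_eq_mul]
    have h2 : (((cf B f b).erase b).card : ℝ) ≤ ((cf B f b).card : ℝ) := by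
      exact_mod_cast Finset.card_erase_le
    have h3 : (0 : ℝ) ≤ ((cf B f b).card : ℝ)⁻¹ := by positivity
    calc (((cf B f b).erase b).card : ℝ) * ((cf B f b).card : ℝ)⁻¹
        ≤ ((cf B f b).card : ℝ) * ((cf B f b).card : ℝ)⁻¹ := mul_le_mul_of_nonneg_right h2 h3
      _ ≤ 1 := mul_inv_le_one
  have hterm : ∀ b ∈ B, ∀ b' ∈ (cf B f b).erase b,
      (V : ℝ) * (((cf B f b).card : ℝ)⁻¹ * ‖Gw χ w b b'‖) ≤
        (∑ x : ZMod p, ((cf B f b).card : ℝ)⁻¹ * w (x * (b' - b) - b) * Pool.Agent.PY2.Ph χ V x) +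
          ((cf B f b).card : ℝ)⁻¹ * (V * e) := by
    intro b hb b' hb'
    obtain ⟨hne, hmem⟩ := Finset.mem_erase.mp hb'
    have h3 : (0 : ℝ) ≤ ((cf B f b).card : ℝ)⁻¹ := by positivity
    have h4 := h1 p χ w V b b' hw hne
    have h5 : ∑ v ∈ Icc 1 V, ∑ c : ZMod p, |w (c + ((2 * v : ℕ) : ZMod p) * (b' - b)) - w c| ≤
        V * e := by
      have := Finset.sum_le_card_nsmul (Icc 1 V)
        (fun v => ∑ c : ZMod p, |w (c + ((2 * v : ℕ) : ZMod p) * (b' - b)) - w c|) e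
        (fun v hv => H b hb b' hmem v hv)
      rwa [Nat.card_Icc, nsmul_eq_mul, Nat.add_sub_cancel] at this
    calc (V : ℝ) * (((cf B f b).card : ℝ)⁻¹ * ‖Gw χ w b b'‖)
        = ((cf B f b).card : ℝ)⁻¹ * ((V : ℝ) * ‖Gw χ w b b'‖) := by ring
      _ ≤ ((cf B f b).card : ℝ)⁻¹ *
          (∑ x : ZMod p, w (x * (b' - b) - b) * Pool.Agent.PY2.Ph χ V x + V * e) :=
        mul_le_mul_of_nonneg_left (h4.trans (add_le_add le_rfl h5)) h3
      _ = _ := by
        rw [mul_add, Finset.mul_sum]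
        congr 1
        apply Finset.sum_congr rfl
        intro x _
        ring
  have hnu : ∑ x : ZMod p, nu B f w x * Pool.Agent.PY2.Ph χ V x =
      ∑ b ∈ B, ∑ b' ∈ (cf B f b).erase b, ∑ x : ZMod p,
        ((cf B f b).card : ℝ)⁻¹ * w (x * (b' - b) - b) * Pool.Agent.PY2.Ph χ V x := by
    unfold nu
    simp only [Finset.sum_mul]
    rw [Finset.sum_comm]
    apply Finset.sum_congr rfl
    intro b _
    rw [Finset.sum_comm]
  rw [hnu, Finset.mul_sum]
  have hlast : (V : ℝ) * e * B.card = ∑ _b ∈ B, (V : ℝ) * e := by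
    rw [Finset.sum_const, nsmul_eq_mul]
    ring
  rw [hlast, ← Finset.sum_add_distrib]
  apply Finset.sum_le_sum
  intro b hb
  rw [Finset.mul_sum]
  calc ∑ b' ∈ (cf B f b).erase b, (V : ℝ) * (((cf B f b).card : ℝ)⁻¹ * ‖Gw χ w b b'‖)
      ≤ ∑ b' ∈ (cf B f b).erase b, ((∑ x : ZMod p,
          ((cf B f b).card : ℝ)⁻¹ * w (x * (b' - b) - b) * Pool.Agent.PY2.Ph χ V x) +
          ((cf B f b).card : ℝ)⁻¹ * (V * e)) := Finset.sum_le_sum (hterm b hb)
    _ = (∑ b' ∈ (cf B f b).erase b, ∑ x : ZMod p,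
          ((cf B f b).card : ℝ)⁻¹ * w (x * (b' - b) - b) * Pool.Agent.PY2.Ph χ V x) +
          (∑ _b' ∈ (cf B f b).erase b, ((cf B f b).card : ℝ)⁻¹) * (V * e) := by
        rw [Finset.sum_add_distrib, Finset.sum_mul]
    _ ≤ _ := by
        apply add_le_add le_rfl
        have := mul_le_mul_of_nonneg_right (hcard b) (mul_nonneg hV he)
        rwa [one_mul] at this

end Pool.Agent.WS
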